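import Pool.Agent.helper25.TW.Spec2

set_option autoImplicit false

namespace TP.TW

open DP MeasureTheory Finset

theorem LC2_til_finite (S : Finset V) : (til S).Finite := by
  classical
  apply (S ∪ S.image fun v => ((v.1 + 1, v.2) : V)).finite_toSet.subset
  intro v hv
  have hv' : br v ∈ S := hv
  simp only [Finset.coe_union, Set.mem_union, Finset.mem_coe, Finset.coe_image, Set.mem_image]
  rcases br_eq v with h | h
  · left
    rw [h] at hv'
    exact hv'
  · right
    refine ⟨br v, hv', ?_⟩
    rw [h]
    ext <;> simp

theorem LC2 : LC2_stmt := by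
  refine ⟨?_, ?_⟩
  · intro k S x r
    refine Loc.ev (ann_finite x r (3 * r)) fun c c' hc => ?_
    have h : ∀ v ∈ til S ∩ ann x r (3 * r), c v = c' v := fun v hv => hc v hv.2
    unfold SRA
    simp only [Conn.congr h]
  · intro k S i h t
    refine Loc.ev (LC2_til_finite S) fun c c' hc => ?_
    unfold TCH
    simp only [Conn.congr hc]

end TP.TW
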